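import Pool.Agent.Y957.VK.Stm3

/-! Project VK (helper957), part VK3-PR: from `Λ` to primes, by helper727. -/

set_option autoImplicit false

namespace Pool.Agent.Y727.VK

open Finset Filter Topology
open Pool.Agent.H376R2.MR (er)
open Pool.Agent.Y957.VK

theorem psi_eq (N : ℕ) : Chebyshev.psi N = ∑ n ∈ Icc 1 N, ArithmeticFunction.vonMangoldt n := by
  unfold Chebyshev.psi
  rw [Nat.floor_natCast]
  rfl

theorem theta_eq (N : ℕ) :
    Chebyshev.theta N = ∑ p ∈ (Icc 1 N).filter Nat.Prime, Real.log p := by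
  unfold Chebyshev.theta
  rw [Nat.floor_natCast]
  rfl

theorem pi_eq (N : ℕ) : (Nat.primeCounting N : ℝ) = ∑ _p ∈ (Icc 1 N).filter Nat.Prime, (1 : ℝ) := by
  rw [Finset.sum_const, nsmul_eq_mul, mul_one, Nat.primeCounting, Nat.primeCounting',
    Nat.count_eq_card_filter_range]
  congr 2
  ext p
  simp only [mem_filter, mem_range, mem_Icc]
  constructor
  · rintro ⟨h1, h2⟩
    exact ⟨⟨h2.one_lt.le, by omega⟩, h2⟩
  · rintro ⟨⟨_, h1⟩, h2⟩
    exact ⟨by omega, h2⟩

/-- `ψ(N) / N → 1` -/
theorem psi_lim (hneg : Neg lamw) :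
    Tendsto (fun N : ℕ => Chebyshev.psi N / N) atTop (𝓝 1) := by
  obtain ⟨C, hC⟩ := hneg 0 1
  have h1 : ∀ N : ℕ, 2 ≤ N → |Chebyshev.psi N / N - 1| ≤ C / Real.log N := by
    intro N hN
    have hN0 : (0 : ℝ) < N := by exact_mod_cast (by omega : 0 < N)
    have hL : 0 < Real.log N := Real.log_pos (by exact_mod_cast (by omega : 1 < N))
    have h2 := hC N 0 hN (by simp)
    have h3 : ∑ n ∈ Finset.Icc 1 N, lamw n * er 0 (Real.log n) =
        ((Chebyshev.psi N - N : ℝ) : ℂ) := by
      have h4 : ∀ n : ℕ, lamw n * er 0 (Real.log n) =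
          (((ArithmeticFunction.vonMangoldt n - 1 : ℝ)) : ℂ) := by
        intro n
        have h5 : er 0 (Real.log n) = 1 := by simp [er]
        rw [h5, mul_one, lamw]
        push_cast
        ring
      rw [Finset.sum_congr rfl fun n _ => h4 n, ← Complex.ofReal_sum, Finset.sum_sub_distrib,
        psi_eq]
      simp
    rw [h3, Complex.norm_real, Real.norm_eq_abs, pow_one] at h2
    have h4 : Chebyshev.psi N / N - 1 = (Chebyshev.psi N - N) / N := by
      field_simp
    rw [h4, abs_div, abs_of_pos hN0, div_le_iff₀ hN0]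
    calc |Chebyshev.psi N - N| ≤ C * N / Real.log N := h2
      _ = C / Real.log N * N := by ring
  have h2 : Tendsto (fun N : ℕ => C / Real.log N) atTop (𝓝 0) :=
    Tendsto.div_atTop tendsto_const_nhds
      (Real.tendsto_log_atTop.comp tendsto_natCast_atTop_atTop)
  have h3 : Tendsto (fun N : ℕ => Chebyshev.psi N / N - 1) atTop (𝓝 0) := by
    refine squeeze_zero_norm' ?_ h2
    filter_upwards [eventually_ge_atTop 2] with N hN
    rw [Real.norm_eq_abs]
    exact h1 N hN
  have h4 := h3.add_const 1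
  simpa using h4

/-- `(ψ(N) - θ(N)) / N → 0` -/
theorem diff_lim :
    Tendsto (fun N : ℕ => (Chebyshev.psi N - Chebyshev.theta N) / (N : ℝ)) atTop (𝓝 0) := by
  have h1 : Tendsto (fun x : ℝ => 2 * (Real.log x / x ^ (1 / 2 : ℝ))) atTop (𝓝 (2 * 0)) :=
    (tendsto_const_nhds).mul
      ((isLittleO_log_rpow_atTop (by norm_num : (0 : ℝ) < 1 / 2)).tendsto_div_nhds_zero)
  rw [mul_zero] at h1
  refine squeeze_zero_norm' ?_ (h1.comp tendsto_natCast_atTop_atTop)
  filter_upwards [eventually_ge_atTop 2] with N hN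
  have hN0 : (0 : ℝ) < N := by exact_mod_cast (by omega : 0 < N)
  have hN1 : (1 : ℝ) ≤ N := by exact_mod_cast (by omega : 1 ≤ N)
  rw [Real.norm_eq_abs, abs_div, abs_of_pos hN0, div_le_iff₀ hN0]
  refine (Chebyshev.abs_psi_sub_theta_le_sqrt_mul_log hN1).trans (le_of_eq ?_)
  show 2 * Real.sqrt N * Real.log N = 2 * (Real.log N / (N : ℝ) ^ (1 / 2 : ℝ)) * N
  rw [← Real.sqrt_eq_rpow]
  have hs : Real.sqrt N * Real.sqrt N = N := Real.mul_self_sqrt hN0.le
  have hs0 : 0 < Real.sqrt N := Real.sqrt_pos.2 hN0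
  field_simp
  rw [sq, hs]
  ring

theorem theta_lim (hneg : Neg lamw) :
    Tendsto (fun N : ℕ => Chebyshev.theta N / N) atTop (𝓝 1) := by
  have h := (psi_lim hneg).sub diff_lim
  rw [sub_zero] at h
  refine h.congr fun N => ?_
  rw [← sub_div]
  congr 1
  ring

/-- `π(N) log N / N - θ(N) / N → 0` -/
theorem pi_sub_lim :
    Tendsto (fun N : ℕ => (Nat.primeCounting N : ℝ) * Real.log N / N - Chebyshev.theta N / N)
      atTop (𝓝 0) := by
  have h1 := Chebyshev.primeCounting_sub_theta_div_log_isBigO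
  obtain ⟨C, hC⟩ := h1.bound
  have h2 := tendsto_natCast_atTop_atTop.eventually hC
  have h3 : Tendsto (fun N : ℕ => C / Real.log N) atTop (𝓝 0) :=
    Tendsto.div_atTop tendsto_const_nhds
      (Real.tendsto_log_atTop.comp tendsto_natCast_atTop_atTop)
  refine squeeze_zero_norm' ?_ h3
  filter_upwards [eventually_ge_atTop 2, h2] with N hN hb
  have hN0 : (0 : ℝ) < N := by exact_mod_cast (by omega : 0 < N)
  have hL : 0 < Real.log N := Real.log_pos (by exact_mod_cast (by omega : 1 < N))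
  rw [Nat.floor_natCast, Real.norm_eq_abs, Real.norm_eq_abs,
    abs_of_pos (show 0 < (N : ℝ) / Real.log N ^ 2 by positivity)] at hb
  rw [Real.norm_eq_abs]
  have h4 : (Nat.primeCounting N : ℝ) * Real.log N / N - Chebyshev.theta N / N =
      ((Nat.primeCounting N : ℝ) - Chebyshev.theta N / Real.log N) * (Real.log N / N) := by
    field_simp
  rw [h4, abs_mul, abs_of_pos (show 0 < Real.log N / (N : ℝ) by positivity)]
  calc |(Nat.primeCounting N : ℝ) - Chebyshev.theta N / Real.log N| * (Real.log N / N)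
      ≤ (C * (N / Real.log N ^ 2)) * (Real.log N / N) :=
        mul_le_mul_of_nonneg_right hb (by positivity)
    _ = C / Real.log N := by
        field_simp

theorem pr (h : S_LW) : S_PR := by
  intro b M hb hlim
  obtain ⟨-, -, hneg⟩ := h
  have hM : 0 ≤ M := (norm_nonneg _).trans (hb 0)
  have ht := theta_lim hneg
  have hs := diff_lim
  have ha : Tendsto (fun N : ℕ => (Nat.primeCounting N : ℝ) * Real.log N / N) atTop (𝓝 1) := by
    have h1 := pi_sub_lim.add ht
    rw [zero_add] at h1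
    refine h1.congr fun N => ?_
    ring
  -- the bound
  have hlim' : Tendsto (fun N : ℕ => M * (1 - (Chebyshev.theta N / N) /
        ((Nat.primeCounting N : ℝ) * Real.log N / N)) +
      |1 / ((Nat.primeCounting N : ℝ) * Real.log N / N) - 1| * (M * (Chebyshev.theta N / N)) +
      M * ((Chebyshev.psi N - Chebyshev.theta N) / (N : ℝ)) +
      ‖(1 / (N : ℂ)) * ∑ n ∈ Finset.Icc 1 N, lamw n * b n‖) atTop (𝓝 0) := by
    have e1 : Tendsto (fun N : ℕ => M * (1 - (Chebyshev.theta N / N) /
        ((Nat.primeCounting N : ℝ) * Real.log N / N))) atTop (𝓝 0) := by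
      have := ((ht.div ha one_ne_zero).const_sub 1).const_mul M
      simpa using this
    have e2 : Tendsto (fun N : ℕ => |1 / ((Nat.primeCounting N : ℝ) * Real.log N / N) - 1| *
        (M * (Chebyshev.theta N / N))) atTop (𝓝 0) := by
      have h1 : Tendsto (fun N : ℕ => |1 / ((Nat.primeCounting N : ℝ) * Real.log N / N) - 1|)
          atTop (𝓝 |1 / 1 - 1|) :=
        (((tendsto_const_nhds (x := (1 : ℝ))).div ha one_ne_zero).sub_const 1).abs
      have := h1.mul (ht.const_mul M)
      simpa using this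
    have e3 : Tendsto (fun N : ℕ => M * ((Chebyshev.psi N - Chebyshev.theta N) / (N : ℝ)))
        atTop (𝓝 0) := by
      have := hs.const_mul M
      simpa using this
    have e4 := hlim.norm
    rw [norm_zero] at e4
    have := ((e1.add e2).add e3).add e4
    simpa using this
  refine squeeze_zero_norm' ?_ hlim'
  filter_upwards [eventually_ge_atTop 2] with N hN
  have hN0 : (0 : ℝ) < N := by exact_mod_cast (by omega : 0 < N)
  have hL : 0 < Real.log N := Real.log_pos (by exact_mod_cast (by omega : 1 < N))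
  have hπ0 : (0 : ℝ) < Nat.primeCounting N := by
    have h1 := Chebyshev.theta_pos (x := N) (by exact_mod_cast hN)
    have h2 := Chebyshev.theta_le_pi_mul_log N
    by_contra hcon
    have h3 : (Nat.primeCounting N : ℝ) * Real.log N ≤ 0 :=
      mul_nonpos_of_nonpos_of_nonneg (not_lt.1 hcon) hL.le
    linarith
  have hθ0 : 0 ≤ Chebyshev.theta N := Chebyshev.theta_nonneg _
  set P : Finset ℕ := (Icc 1 N).filter Nat.Prime with hP
  set S : ℂ := ∑ p ∈ P, b p with hS
  set Θ : ℂ := ∑ p ∈ P, b p * (Real.log p : ℂ) with hΘ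
  set Λb : ℂ := ∑ n ∈ Icc 1 N, (ArithmeticFunction.vonMangoldt n : ℂ) * b n with hΛ
  -- E1
  have E1 : ‖S - Θ / (Real.log N : ℂ)‖ ≤
      M * ((Nat.primeCounting N : ℝ) - Chebyshev.theta N / Real.log N) := by
    have h1 : S - Θ / (Real.log N : ℂ) =
        ∑ p ∈ P, b p * ((1 - Real.log p / Real.log N : ℝ) : ℂ) := by
      rw [hS, hΘ, Finset.sum_div, ← Finset.sum_sub_distrib]
      refine Finset.sum_congr rfl fun p _ => ?_
      push_cast
      ring
    have h2 : M * ((Nat.primeCounting N : ℝ) - Chebyshev.theta N / Real.log N) =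
        ∑ p ∈ P, M * (1 - Real.log p / Real.log N) := by
      rw [← Finset.mul_sum, Finset.sum_sub_distrib, ← Finset.sum_div, ← theta_eq, ← pi_eq]
    rw [h1, h2]
    refine (norm_sum_le _ _).trans (Finset.sum_le_sum fun p hp => ?_)
    rw [hP, mem_filter, mem_Icc] at hp
    have hp1 : (1 : ℝ) ≤ p := by exact_mod_cast hp.1.1
    have hpN : Real.log p ≤ Real.log N :=
      Real.log_le_log (by linarith) (by exact_mod_cast hp.1.2)
    have h3 : 0 ≤ 1 - Real.log p / Real.log N := by
      rw [sub_nonneg, div_le_one hL]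
      exact hpN
    rw [norm_mul, Complex.norm_real, Real.norm_eq_abs, abs_of_nonneg h3]
    exact mul_le_mul_of_nonneg_right (hb p) h3
  -- E2
  have E2 : ‖Θ‖ ≤ M * Chebyshev.theta N := by
    rw [theta_eq, Finset.mul_sum]
    refine (norm_sum_le _ _).trans (Finset.sum_le_sum fun p hp => ?_)
    rw [hP, mem_filter, mem_Icc] at hp
    have hp1 : (1 : ℝ) ≤ p := by exact_mod_cast hp.1.1
    rw [norm_mul, Complex.norm_real, Real.norm_eq_abs, abs_of_nonneg (Real.log_nonneg hp1)]
    exact mul_le_mul_of_nonneg_right (hb p) (Real.log_nonneg hp1)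
  -- E3
  have E3 : ‖Θ - Λb‖ ≤ M * (Chebyshev.psi N - Chebyshev.theta N) := by
    have h1 : Θ - Λb = ∑ n ∈ Icc 1 N, b n *
        (((if n.Prime then Real.log n else 0) - ArithmeticFunction.vonMangoldt n : ℝ) : ℂ) := by
      rw [hΘ, hΛ, hP, Finset.sum_filter, ← Finset.sum_sub_distrib]
      refine Finset.sum_congr rfl fun n _ => ?_
      split_ifs with hn
      · push_cast; ring
      · push_cast; ring
    have h2 : M * (Chebyshev.psi N - Chebyshev.theta N) = ∑ n ∈ Icc 1 N, M *
        (ArithmeticFunction.vonMangoldt n - (if n.Prime then Real.log n else 0)) := by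
      rw [← Finset.mul_sum, Finset.sum_sub_distrib, psi_eq, theta_eq, Finset.sum_filter]
    rw [h1, h2]
    refine (norm_sum_le _ _).trans (Finset.sum_le_sum fun n _ => ?_)
    have h3 : 0 ≤ ArithmeticFunction.vonMangoldt n - (if n.Prime then Real.log n else 0) := by
      split_ifs with hn
      · rw [ArithmeticFunction.vonMangoldt_apply_prime hn, sub_self]
      · rw [sub_zero]
        exact ArithmeticFunction.vonMangoldt_nonneg
    rw [norm_mul, Complex.norm_real, Real.norm_eq_abs, abs_sub_comm, abs_of_nonneg h3]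
    exact mul_le_mul_of_nonneg_right (hb n) h3
  -- the identity
  have hNc : (N : ℂ) ≠ 0 := by exact_mod_cast hN0.ne'
  have hπc : (Nat.primeCounting N : ℂ) ≠ 0 := by exact_mod_cast hπ0.ne'
  have hLc : ((Real.log N : ℝ) : ℂ) ≠ 0 := by exact_mod_cast hL.ne'
  have hlw : ∑ n ∈ Icc 1 N, lamw n * b n = Λb - ∑ n ∈ Icc 1 N, b n := by
    rw [hΛ, ← Finset.sum_sub_distrib]
    refine Finset.sum_congr rfl fun n _ => ?_
    unfold lamw
    ring
  have hid : (1 / (Nat.primeCounting N : ℂ)) * S - (1 / (N : ℂ)) * ∑ n ∈ Icc 1 N, b n =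
      (1 / (Nat.primeCounting N : ℂ)) * (S - Θ / (Real.log N : ℂ)) +
      (1 / ((Nat.primeCounting N : ℂ) * (Real.log N : ℂ)) - 1 / (N : ℂ)) * Θ +
      (1 / (N : ℂ)) * (Θ - Λb) + (1 / (N : ℂ)) * ∑ n ∈ Icc 1 N, lamw n * b n := by
    rw [hlw]
    field_simp
    ring
  rw [hid]
  have n1 : ‖(1 / (Nat.primeCounting N : ℂ)) * (S - Θ / (Real.log N : ℂ))‖ ≤
      M * (1 - (Chebyshev.theta N / N) / ((Nat.primeCounting N : ℝ) * Real.log N / N)) := by
    rw [norm_mul]
    have h1 : ‖(1 / (Nat.primeCounting N : ℂ))‖ = 1 / (Nat.primeCounting N : ℝ) := by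
      rw [norm_div, norm_one, Complex.norm_natCast]
    rw [h1]
    refine (mul_le_mul_of_nonneg_left E1 (by positivity)).trans (le_of_eq ?_)
    field_simp
  have n2 : ‖(1 / ((Nat.primeCounting N : ℂ) * (Real.log N : ℂ)) - 1 / (N : ℂ)) * Θ‖ ≤
      |1 / ((Nat.primeCounting N : ℝ) * Real.log N / N) - 1| * (M * (Chebyshev.theta N / N)) := by
    rw [norm_mul]
    have h1 : (1 / ((Nat.primeCounting N : ℂ) * (Real.log N : ℂ)) - 1 / (N : ℂ)) =
        (((1 / ((Nat.primeCounting N : ℝ) * Real.log N / N) - 1) * (1 / N) : ℝ) : ℂ) := by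
      push_cast
      field_simp
    rw [h1, Complex.norm_real, Real.norm_eq_abs, abs_mul,
      abs_of_pos (show 0 < 1 / (N : ℝ) by positivity)]
    refine (mul_le_mul_of_nonneg_left E2 (by positivity)).trans (le_of_eq ?_)
    ring
  have n3 : ‖(1 / (N : ℂ)) * (Θ - Λb)‖ ≤
      M * ((Chebyshev.psi N - Chebyshev.theta N) / (N : ℝ)) := by
    rw [norm_mul]
    have h1 : ‖(1 / (N : ℂ))‖ = 1 / (N : ℝ) := by
      rw [norm_div, norm_one, Complex.norm_natCast]
    rw [h1]
    refine (mul_le_mul_of_nonneg_left E3 (by positivity)).trans (le_of_eq ?_)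
    ring
  refine (norm_add_le _ _).trans ?_
  refine add_le_add ((norm_add_le _ _).trans (add_le_add ((norm_add_le _ _).trans
    (add_le_add n1 n2)) n3)) le_rfl

end Pool.Agent.Y727.VK
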